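import Pool.Agent.H82.AS.Targets

/-!
Asymptotic formula for the number of admissible triples (`MP_7ecdd4_nt`): row PAI.
-/

set_option autoImplicit false

open Finset

open Pool.Agent.H38.RB Pool.Agent.H38.PS Pool.Agent.H82.AS

namespace Pool.Agent.H3.AS

/-- a new prime factor does not change the quotient by the radical -/
theorem ex_mul_prime {p E : ℕ} (hp : p.Prime) (hE : E ≠ 0) (h : ¬ p ∣ E) : ex (p * E) = ex E := by
  unfold ex
  have h1 : (p * E).primeFactors = insert p E.primeFactors := by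
    rw [Nat.primeFactors_mul hp.ne_zero hE, hp.primeFactors]
    rfl
  have h2 : p ∉ E.primeFactors := fun h' => h (Nat.dvd_of_mem_primeFactors h')
  have h3 : pd (p * E).primeFactors = p * pd E.primeFactors := by
    rw [h1]
    unfold pd
    rw [Finset.prod_insert h2]
  have hp0 : (p : ℝ) ≠ 0 := by exact_mod_cast hp.ne_zero
  rw [h3]
  push_cast
  exact mul_div_mul_left _ _ hp0

theorem mu_mul_prime {p k : ℕ} (hp : p.Prime) (h : ¬ p ∣ k) :
    (ArithmeticFunction.moebius (p * k) : ℝ) = -(ArithmeticFunction.moebius k : ℝ) := by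
  have h1 : p.Coprime k := (Nat.Prime.coprime_iff_not_dvd hp).2 h
  rw [ArithmeticFunction.isMultiplicative_moebius.map_mul_of_coprime h1,
    ArithmeticFunction.moebius_apply_prime hp]
  push_cast
  ring

theorem pf_PAI : T_PAI := by
  classical
  intro h D hD hsq
  unfold Sqf at hsq
  push Not at hsq
  obtain ⟨p, hp, ⟨m, rfl⟩, hp2⟩ := hsq
  have hm0 : m ≠ 0 := by
    rintro rfl
    simp at hD
  have hpm : ¬ p ∣ m := by
    rintro ⟨c, rfl⟩
    exact hp2 ⟨c, by ring⟩
  -- the divisors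
  have hdiv : (p * m).divisors = m.divisors ∪ m.divisors.image (fun E => p * E) := by
    ext E
    simp only [Nat.mem_divisors, Finset.mem_union, Finset.mem_image]
    constructor
    · rintro ⟨hE, -⟩
      by_cases hpE : p ∣ E
      · obtain ⟨c, rfl⟩ := hpE
        exact Or.inr ⟨c, ⟨Nat.dvd_of_mul_dvd_mul_left hp.pos hE, hm0⟩, rfl⟩
      · exact Or.inl ⟨(((Nat.Prime.coprime_iff_not_dvd hp).2 hpE).symm.dvd_of_dvd_mul_left hE), hm0⟩
    · rintro (⟨hE, -⟩ | ⟨c, ⟨hc, -⟩, rfl⟩)
      · exact ⟨Dvd.dvd.mul_left hE p, Nat.mul_ne_zero hp.ne_zero hm0⟩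
      · exact ⟨Nat.mul_dvd_mul_left p hc, Nat.mul_ne_zero hp.ne_zero hm0⟩
  have hdisj : Disjoint m.divisors (m.divisors.image fun E => p * E) := by
    rw [Finset.disjoint_left]
    intro E hE hE'
    obtain ⟨c, -, rfl⟩ := Finset.mem_image.1 hE'
    exact hpm ((Dvd.intro _ rfl).trans (Nat.dvd_of_mem_divisors hE))
  rw [hdiv, Finset.sum_union hdisj, Finset.sum_image fun a _ b _ hab =>
    Nat.eq_of_mul_eq_mul_left hp.pos hab, ← Finset.sum_add_distrib]
  refine Finset.sum_eq_zero fun E hE => ?_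
  obtain ⟨c, hc⟩ := Nat.dvd_of_mem_divisors hE
  have hE0 : E ≠ 0 := by
    rintro rfl
    rw [zero_mul] at hc
    exact hm0 hc
  have hpE : ¬ p ∣ E := fun h' => hpm (h'.trans ⟨c, hc⟩)
  have hpc : ¬ p ∣ c := fun h' => hpm (h'.trans ⟨E, by rw [hc]; ring⟩)
  have e1 : p * m / E = p * c := by
    rw [hc, show p * (E * c) = p * c * E by ring]
    exact Nat.mul_div_cancel _ (Nat.pos_of_ne_zero hE0)
  have e2 : p * m / (p * E) = c := by
    rw [hc, ← mul_assoc, mul_comm (p * E) c]
    exact Nat.mul_div_cancel _ (Nat.mul_pos hp.pos (Nat.pos_of_ne_zero hE0))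
  rw [e1, e2, mu_mul_prime hp hpc, ex_mul_prime hp hE0 hpE]
  ring

end Pool.Agent.H3.AS
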