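import Pool.Agent.H82.AS.Targets

/-!
Asymptotic formula for the number of admissible triples (`MP_7ecdd4_nt`): row SQT.
-/

set_option autoImplicit false

open Finset

open Pool.Agent.H38.RB Pool.Agent.H38.PS Pool.Agent.H82.AS

namespace Pool.Agent.H3.AS

theorem step_rpow (n : ℕ) :
    3 * (n : ℝ) ^ (1 / 3 : ℝ) + ((n + 1 : ℕ) : ℝ) ^ (-(2 / 3) : ℝ) ≤
      3 * ((n + 1 : ℕ) : ℝ) ^ (1 / 3 : ℝ) := by
  have hn : (0 : ℝ) ≤ n := Nat.cast_nonneg n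
  have hn1 : (0 : ℝ) < ((n + 1 : ℕ) : ℝ) := by positivity
  set a : ℝ := ((n + 1 : ℕ) : ℝ) ^ (1 / 3 : ℝ) with ha
  set b : ℝ := (n : ℝ) ^ (1 / 3 : ℝ) with hb
  have ha0 : 0 < a := Real.rpow_pos_of_pos hn1 _
  have hb0 : 0 ≤ b := Real.rpow_nonneg hn _
  have ha3 : a ^ 3 = (n : ℝ) + 1 := by
    rw [ha, ← Real.rpow_natCast, ← Real.rpow_mul hn1.le]
    norm_num
  have hb3 : b ^ 3 = (n : ℝ) := by
    rw [hb, ← Real.rpow_natCast, ← Real.rpow_mul hn]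
    norm_num
  have hc : ((n + 1 : ℕ) : ℝ) ^ (-(2 / 3) : ℝ) = (a ^ 2)⁻¹ := by
    rw [ha, ← Real.rpow_natCast, ← Real.rpow_mul hn1.le, ← Real.rpow_neg hn1.le]
    norm_num
  have hba : b ≤ a := by
    refine Real.rpow_le_rpow hn ?_ (by norm_num)
    push_cast; linarith
  rw [hc]
  have h1 : (a - b) * (3 * a ^ 2) ≥ 1 := by
    have h2 : (a - b) * (a ^ 2 + a * b + b ^ 2) = 1 := by
      have : (a - b) * (a ^ 2 + a * b + b ^ 2) = a ^ 3 - b ^ 3 := by ring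
      rw [this, ha3, hb3]; ring
    have h3 : a ^ 2 + a * b + b ^ 2 ≤ 3 * a ^ 2 := by nlinarith
    have h4 := mul_le_mul_of_nonneg_left h3 (sub_nonneg.2 hba)
    linarith
  have h5 : (a ^ 2)⁻¹ ≤ 3 * (a - b) := by
    have h6 : 0 < a ^ 2 := by positivity
    rw [inv_eq_one_div, div_le_iff₀ h6]
    nlinarith
  linarith

theorem sum_rpow_le (N : ℕ) :
    ∑ r ∈ Icc 1 N, (r : ℝ) ^ (-(2 / 3) : ℝ) ≤ 3 * (N : ℝ) ^ (1 / 3 : ℝ) := by
  induction N with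
  | zero => simp
  | succ n ih =>
    rw [Finset.sum_Icc_succ_top (by omega)]
    have := step_rpow n
    linarith

theorem pf_SQT (hrdc : T_RDC) (hsqb : T_SQB) : T_SQT := by
  classical
  intro ε hε
  obtain ⟨C, hC, hcard⟩ := hrdc ε hε
  refine ⟨6 * C, by positivity, fun W F hW hF => ?_⟩
  have hW0 : (0 : ℝ) < W := by linarith
  set R : ℕ := ⌊W ^ (1 / 2 : ℝ)⌋₊ with hR
  have hWh : (0 : ℝ) ≤ W ^ (1 / 2 : ℝ) := Real.rpow_nonneg hW0.le _
  have hRle : (R : ℝ) ≤ W ^ (1 / 2 : ℝ) := Nat.floor_le hWh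
  have hmaps : ∀ D ∈ F, pd D.primeFactors ∈ Icc 1 R := by
    intro D hD
    obtain ⟨h1, h2, h3⟩ := hF D hD
    have h4 := (hsqb D h2).2.2.2.2.2.2 h1
    rw [Finset.mem_Icc]
    constructor
    · unfold pd
      exact Nat.one_le_iff_ne_zero.2 (Finset.prod_ne_zero_iff.2 fun p hp =>
        (Nat.prime_of_mem_primeFactors hp).ne_zero)
    · rw [hR]
      refine Nat.le_floor ?_
      have h5 : ((pd D.primeFactors : ℕ) : ℝ) ^ 2 ≤ W := by
        refine le_trans ?_ h3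
        exact_mod_cast h4
      have h6 := Real.rpow_le_rpow (sq_nonneg _) h5 (by norm_num : (0 : ℝ) ≤ 1 / 2)
      rwa [← Real.sqrt_eq_rpow, Real.sqrt_sq (Nat.cast_nonneg _)] at h6
  have hfib : ∀ r ∈ Icc 1 R, ((F.filter fun D => pd D.primeFactors = r).card : ℝ) ≤ C * W ^ ε := by
    intro r _
    refine hcard r W _ hW fun n hn => ?_
    rw [Finset.mem_filter] at hn
    exact ⟨(hF n hn.1).2.1, (hF n hn.1).2.2, hn.2⟩
  have hCW : 0 ≤ C * W ^ ε := mul_nonneg hC.le (Real.rpow_nonneg hW0.le _)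
  constructor
  · have h1 : F.card = ∑ r ∈ Icc 1 R, (F.filter fun D => pd D.primeFactors = r).card :=
      Finset.card_eq_sum_card_fiberwise hmaps
    have h2 : (F.card : ℝ) ≤ ∑ r ∈ Icc 1 R, C * W ^ ε := by
      rw [h1]
      push_cast
      exact Finset.sum_le_sum hfib
    rw [Finset.sum_const, Nat.card_Icc, Nat.add_sub_cancel, nsmul_eq_mul] at h2
    calc (F.card : ℝ) ≤ (R : ℝ) * (C * W ^ ε) := h2
      _ ≤ W ^ (1 / 2 : ℝ) * (C * W ^ ε) := mul_le_mul_of_nonneg_right hRle hCW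
      _ = C * W ^ (1 / 2 + ε) := by rw [Real.rpow_add hW0]; ring
      _ ≤ 6 * C * W ^ (1 / 2 + ε) := by
        have : 0 ≤ C * W ^ (1 / 2 + ε) := mul_nonneg hC.le (Real.rpow_nonneg hW0.le _)
        linarith
  · intro hlow
    have hterm : ∀ D ∈ F, ex D ^ (2 / 3 : ℝ) / D ≤
        ((pd D.primeFactors : ℕ) : ℝ) ^ (-(2 / 3) : ℝ) * (W / 2) ^ (-(1 / 3) : ℝ) := by
      intro D hD
      have hD1 : (0 : ℝ) < D := by
        have := (hF D hD).2.1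
        exact_mod_cast this
      have hr1 : (0 : ℝ) < ((pd D.primeFactors : ℕ) : ℝ) := by
        have := (Finset.mem_Icc.1 (hmaps D hD)).1
        exact_mod_cast this
      have h1 : ex D ^ (2 / 3 : ℝ) / D = ((pd D.primeFactors : ℕ) : ℝ) ^ (-(2 / 3) : ℝ) *
          (D : ℝ) ^ (-(1 / 3) : ℝ) := by
        unfold ex
        rw [Real.div_rpow hD1.le hr1.le, Real.rpow_neg hr1.le,
          show (-(1 / 3) : ℝ) = 2 / 3 - 1 by norm_num, Real.rpow_sub hD1, Real.rpow_one]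
        field_simp
      rw [h1]
      refine mul_le_mul_of_nonneg_left ?_ (Real.rpow_nonneg hr1.le _)
      exact Real.rpow_le_rpow_of_nonpos (by positivity) (hlow D hD).le (by norm_num)
    have h1 : ∑ D ∈ F, ex D ^ (2 / 3 : ℝ) / D ≤
        ∑ D ∈ F, ((pd D.primeFactors : ℕ) : ℝ) ^ (-(2 / 3) : ℝ) * (W / 2) ^ (-(1 / 3) : ℝ) :=
      Finset.sum_le_sum hterm
    have h2 : ∑ D ∈ F, ((pd D.primeFactors : ℕ) : ℝ) ^ (-(2 / 3) : ℝ) * (W / 2) ^ (-(1 / 3) : ℝ) =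
        ∑ r ∈ Icc 1 R, ∑ D ∈ F.filter (fun D => pd D.primeFactors = r),
          ((pd D.primeFactors : ℕ) : ℝ) ^ (-(2 / 3) : ℝ) * (W / 2) ^ (-(1 / 3) : ℝ) :=
      (Finset.sum_fiberwise_of_maps_to hmaps _).symm
    have h3 : ∑ r ∈ Icc 1 R, ∑ D ∈ F.filter (fun D => pd D.primeFactors = r),
          ((pd D.primeFactors : ℕ) : ℝ) ^ (-(2 / 3) : ℝ) * (W / 2) ^ (-(1 / 3) : ℝ) ≤
        ∑ r ∈ Icc 1 R, (C * W ^ ε * (W / 2) ^ (-(1 / 3) : ℝ)) * (r : ℝ) ^ (-(2 / 3) : ℝ) := by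
      refine Finset.sum_le_sum fun r hr => ?_
      have h4 : ∑ D ∈ F.filter (fun D => pd D.primeFactors = r),
          ((pd D.primeFactors : ℕ) : ℝ) ^ (-(2 / 3) : ℝ) * (W / 2) ^ (-(1 / 3) : ℝ) =
          ∑ D ∈ F.filter (fun D => pd D.primeFactors = r),
          (r : ℝ) ^ (-(2 / 3) : ℝ) * (W / 2) ^ (-(1 / 3) : ℝ) := by
        refine Finset.sum_congr rfl fun D hD => ?_
        rw [(Finset.mem_filter.1 hD).2]
      rw [h4, Finset.sum_const, nsmul_eq_mul]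
      have h5 : 0 ≤ (r : ℝ) ^ (-(2 / 3) : ℝ) * (W / 2) ^ (-(1 / 3) : ℝ) :=
        mul_nonneg (Real.rpow_nonneg (Nat.cast_nonneg _) _) (Real.rpow_nonneg (by positivity) _)
      calc ((F.filter fun D => pd D.primeFactors = r).card : ℝ) *
            ((r : ℝ) ^ (-(2 / 3) : ℝ) * (W / 2) ^ (-(1 / 3) : ℝ)) ≤
            (C * W ^ ε) * ((r : ℝ) ^ (-(2 / 3) : ℝ) * (W / 2) ^ (-(1 / 3) : ℝ)) :=
          mul_le_mul_of_nonneg_right (hfib r hr) h5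
        _ = _ := by ring
    rw [← Finset.mul_sum] at h3
    have h6 : ∑ r ∈ Icc 1 R, (r : ℝ) ^ (-(2 / 3) : ℝ) ≤ 3 * W ^ (1 / 6 : ℝ) := by
      refine (sum_rpow_le R).trans ?_
      have h7 := Real.rpow_le_rpow (Nat.cast_nonneg R) hRle (by norm_num : (0 : ℝ) ≤ 1 / 3)
      rw [← Real.rpow_mul hW0.le] at h7
      have h8 : (1 / 2 : ℝ) * (1 / 3) = 1 / 6 := by norm_num
      rw [h8] at h7
      linarith
    have hpos : 0 ≤ C * W ^ ε * (W / 2) ^ (-(1 / 3) : ℝ) :=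
      mul_nonneg hCW (Real.rpow_nonneg (by positivity) _)
    have h9 : (W / 2) ^ (-(1 / 3) : ℝ) ≤ 2 * W ^ (-(1 / 3) : ℝ) := by
      rw [Real.div_rpow hW0.le (by norm_num), Real.rpow_neg (by norm_num : (0 : ℝ) ≤ 2), div_inv_eq_mul,
        mul_comm]
      refine mul_le_mul_of_nonneg_right ?_ (Real.rpow_nonneg hW0.le _)
      calc (2 : ℝ) ^ (1 / 3 : ℝ) ≤ 2 ^ (1 : ℝ) :=
            Real.rpow_le_rpow_of_exponent_le (by norm_num) (by norm_num)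
        _ = 2 := Real.rpow_one 2
    calc ∑ D ∈ F, ex D ^ (2 / 3 : ℝ) / D
        ≤ (C * W ^ ε * (W / 2) ^ (-(1 / 3) : ℝ)) * ∑ r ∈ Icc 1 R, (r : ℝ) ^ (-(2 / 3) : ℝ) := by
          linarith
      _ ≤ (C * W ^ ε * (W / 2) ^ (-(1 / 3) : ℝ)) * (3 * W ^ (1 / 6 : ℝ)) :=
          mul_le_mul_of_nonneg_left h6 hpos
      _ ≤ (C * W ^ ε * (2 * W ^ (-(1 / 3) : ℝ))) * (3 * W ^ (1 / 6 : ℝ)) := by
          refine mul_le_mul_of_nonneg_right ?_ (by positivity)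
          exact mul_le_mul_of_nonneg_left h9 hCW
      _ = 6 * C * (W ^ ε * (W ^ (-(1 / 3) : ℝ) * W ^ (1 / 6 : ℝ))) := by ring
      _ = 6 * C * W ^ (-(1 / 6) + ε) := by
          rw [← Real.rpow_add hW0, ← Real.rpow_add hW0]
          norm_num
          ring_nf
          tauto

end Pool.Agent.H3.AS
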